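import Mathlib

/-!
# Double Zarankiewicz numbers are of quadratic order

For `MP_af8792_co`.  Two diagonal blocks, with every cell of the first block joined by a 2-edge to
the corresponding cell of the second block, contain no generalized `C_4`-cycle.  Hence
`z_2(m,n) ≥ ⌊m/2⌋ ⌊n/2⌋`.
-/

namespace Pool.Agent.Results.MP_af8792_co.QuadraticGrowth

/-- A configuration on the grid `[m] × [n]`: a set `E1` of cells (the 1-edges) and a set `E2` of
pairs of cells differing in row and column (the 2-edges), no cell being occupied by two different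
edges. -/
structure Config (m n : ℕ) where
  /-- the 1-edges -/
  E1 : Finset (Fin m × Fin n)
  /-- the 2-edges -/
  E2 : Finset ((Fin m × Fin n) × (Fin m × Fin n))
  /-- the two cells of a 2-edge differ in row and in column -/
  ne_ne : ∀ e ∈ E2, e.1.1 ≠ e.2.1 ∧ e.1.2 ≠ e.2.2
  /-- no cell lies both in a 1-edge and in a 2-edge -/
  disj12 : ∀ e ∈ E2, e.1 ∉ E1 ∧ e.2 ∉ E1
  /-- no cell lies in two different 2-edges -/
  disj22 : ∀ e ∈ E2, ∀ f ∈ E2, e ≠ f → e.1 ≠ f.1 ∧ e.1 ≠ f.2 ∧ e.2 ≠ f.1 ∧ e.2 ≠ f.2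

/-- The cell `c` is occupied: it is a 1-edge or one of the two cells of a 2-edge. -/
def Config.Occ {m n : ℕ} (G : Config m n) (c : Fin m × Fin n) : Prop :=
  c ∈ G.E1 ∨ ∃ e ∈ G.E2, c = e.1 ∨ c = e.2

/-- `G` contains a generalized `C_4`-cycle (items 1, 2, 3 of the problem file). -/
def Config.HasGenC4 {m n : ℕ} (G : Config m n) : Prop :=
  (∃ i k : Fin m, ∃ j l : Fin n, i ≠ k ∧ j ≠ l ∧
    (i, j) ∈ G.E1 ∧ (i, l) ∈ G.E1 ∧ (k, j) ∈ G.E1 ∧ (k, l) ∈ G.E1) ∨
  (∃ i k : Fin m, ∃ j l : Fin n, ((i, j), (k, l)) ∈ G.E2 ∧ G.Occ (i, l) ∧ G.Occ (k, j)) ∨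
  (∃ i p k : Fin m, ∃ j q l : Fin n, ((i, j), (p, q)) ∈ G.E2 ∧
    [(k, l), (k, j), (k, q), (i, l), (p, l)].Nodup ∧
    ∀ c ∈ [(k, l), (k, j), (k, q), (i, l), (p, l)], G.Occ c)

/-- The double Zarankiewicz number `z_2(m,n)`. -/
noncomputable def z2 (m n : ℕ) : ℕ :=
  sSup {t : ℕ | ∃ G : Config m n, ¬ G.HasGenC4 ∧ t = G.E1.card + G.E2.card}

/-- In every configuration `|E1| + |E2| ≤ m n`. -/
lemma card_le {m n : ℕ} (G : Config m n) : G.E1.card + G.E2.card ≤ m * n := by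
  classical
  have hinj : Set.InjOn (fun e : (Fin m × Fin n) × (Fin m × Fin n) => e.1) G.E2 := by
    intro e he f hf h
    by_contra hne
    exact (G.disj22 e he f hf hne).1 h
  have h1 : (G.E2.image (fun e => e.1)).card = G.E2.card := Finset.card_image_of_injOn hinj
  have h2 : Disjoint G.E1 (G.E2.image (fun e => e.1)) := by
    rw [Finset.disjoint_left]
    intro c hc hc'
    obtain ⟨e, he, rfl⟩ := Finset.mem_image.1 hc'
    exact (G.disj12 e he).1 hc
  calc G.E1.card + G.E2.card = (G.E1 ∪ G.E2.image (fun e => e.1)).card := by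
        rw [Finset.card_union_of_disjoint h2, h1]
    _ ≤ (Finset.univ : Finset (Fin m × Fin n)).card := Finset.card_le_univ _
    _ = m * n := by simp

lemma bddAbove (m n : ℕ) :
    BddAbove {t : ℕ | ∃ G : Config m n, ¬ G.HasGenC4 ∧ t = G.E1.card + G.E2.card} := by
  refine ⟨m * n, ?_⟩
  rintro t ⟨G, -, rfl⟩
  exact card_le G

/-- first cell of the 2-edge indexed by `(a, b)` -/
def c1 (m n : ℕ) (x : Fin (m / 2) × Fin (n / 2)) : Fin m × Fin n :=
  (⟨x.1.1, by have := x.1.2; omega⟩, ⟨x.2.1, by have := x.2.2; omega⟩)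

/-- second cell of the 2-edge indexed by `(a, b)` -/
def c2 (m n : ℕ) (x : Fin (m / 2) × Fin (n / 2)) : Fin m × Fin n :=
  (⟨m / 2 + x.1.1, by have := x.1.2; omega⟩, ⟨n / 2 + x.2.1, by have := x.2.2; omega⟩)

/-- The 2-edges of the block configuration. -/
def blockE2 (m n : ℕ) : Finset ((Fin m × Fin n) × (Fin m × Fin n)) :=
  (Finset.univ : Finset (Fin (m / 2) × Fin (n / 2))).image (fun x => (c1 m n x, c2 m n x))

lemma mem_blockE2 {m n : ℕ} {e : (Fin m × Fin n) × (Fin m × Fin n)} (he : e ∈ blockE2 m n) :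
    (e.1.1.1 < m / 2 ∧ e.1.2.1 < n / 2) ∧ (e.2.1.1 = m / 2 + e.1.1.1 ∧ e.2.2.1 = n / 2 + e.1.2.1) := by
  obtain ⟨x, -, rfl⟩ := Finset.mem_image.1 he
  exact ⟨⟨x.1.2, x.2.2⟩, rfl, rfl⟩

/-- The block configuration. -/
def block (m n : ℕ) : Config m n where
  E1 := ∅
  E2 := blockE2 m n
  ne_ne := by
    intro e he
    obtain ⟨⟨h1, h2⟩, h3, h4⟩ := mem_blockE2 he
    refine ⟨fun h => ?_, fun h => ?_⟩
    · have := congrArg Fin.val h; omega
    · have := congrArg Fin.val h; omega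
  disj12 := by intro e _; simp
  disj22 := by
    intro e he f hf hef
    obtain ⟨⟨h1, h2⟩, h3, h4⟩ := mem_blockE2 he
    obtain ⟨⟨g1, g2⟩, g3, g4⟩ := mem_blockE2 hf
    have key : ¬ (e.1.1.1 = f.1.1.1 ∧ e.1.2.1 = f.1.2.1) := by
      rintro ⟨h5, h6⟩
      apply hef
      refine Prod.ext (Prod.ext (Fin.ext h5) (Fin.ext h6)) (Prod.ext (Fin.ext ?_) (Fin.ext ?_))
      · omega
      · omega
    refine ⟨fun h => ?_, fun h => ?_, fun h => ?_, fun h => ?_⟩
    · exact key ⟨by rw [h], by rw [h]⟩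
    · have : e.1.1.1 = f.2.1.1 := by rw [h]
      omega
    · have : e.2.1.1 = f.1.1.1 := by rw [h]
      omega
    · have h5 : e.2.1.1 = f.2.1.1 := by rw [h]
      have h6 : e.2.2.1 = f.2.2.1 := by rw [h]
      exact key ⟨by omega, by omega⟩

lemma occ_block {m n : ℕ} {c : Fin m × Fin n} (h : (block m n).Occ c) :
    (c.1.1 < m / 2 ∧ c.2.1 < n / 2) ∨ (m / 2 ≤ c.1.1 ∧ n / 2 ≤ c.2.1) := by
  rcases h with h | ⟨e, he, h | h⟩
  · exact absurd h (by simp [block])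
  · left; subst h; exact (mem_blockE2 he).1
  · right; subst h
    obtain ⟨-, h3, h4⟩ := mem_blockE2 he
    omega

lemma block_free (m n : ℕ) : ¬ (block m n).HasGenC4 := by
  rintro (⟨i, k, j, l, -, -, h, -⟩ | ⟨i, k, j, l, he, h1, h2⟩ | ⟨i, p, k, j, q, l, he, -, h⟩)
  · exact absurd h (by simp [block])
  · obtain ⟨⟨g1, g2⟩, g3, g4⟩ := mem_blockE2 he
    have := occ_block h1
    simp only at *
    omega
  · obtain ⟨⟨g1, g2⟩, g3, g4⟩ := mem_blockE2 he
    have h1 := occ_block (h (k, j) (by simp))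
    have h2 := occ_block (h (k, q) (by simp))
    simp only at *
    omega

lemma block_card (m n : ℕ) : (block m n).E1.card + (block m n).E2.card = (m / 2) * (n / 2) := by
  have hinj : Function.Injective
      (fun x : Fin (m / 2) × Fin (n / 2) => (c1 m n x, c2 m n x)) := by
    intro x y h
    have h1 : c1 m n x = c1 m n y := congrArg Prod.fst h
    have h2 : x.1.1 = y.1.1 := congrArg (fun c : Fin m × Fin n => c.1.1) h1
    have h3 : x.2.1 = y.2.1 := congrArg (fun c : Fin m × Fin n => c.2.1) h1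
    exact Prod.ext (Fin.ext h2) (Fin.ext h3)
  have : (blockE2 m n).card = (m / 2) * (n / 2) := by
    unfold blockE2
    rw [Finset.card_image_of_injective _ hinj]
    simp
  simp [block, this]

lemma lower (m n : ℕ) : (m / 2) * (n / 2) ≤ z2 m n :=
  le_csSup (bddAbove m n) ⟨block m n, block_free m n, (block_card m n).symm⟩

lemma upper (m n : ℕ) : z2 m n ≤ m * n := by
  refine csSup_le ⟨_, block m n, block_free m n, rfl⟩ ?_
  rintro t ⟨G, -, rfl⟩
  exact card_le G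

/-- **The double Zarankiewicz number has quadratic order.**  `⌊m/2⌋⌊n/2⌋ ≤ z_2(m,n) ≤ m n`, and
there is no constant `C` with `z_2(m,n) ≤ C (m √n + n)` for all `m, n ≥ 2`. -/
theorem result :
    (∀ m n : ℕ, (m / 2) * (n / 2) ≤ z2 m n ∧ z2 m n ≤ m * n) ∧
    ¬ ∃ C : ℝ, ∀ m n : ℕ, 2 ≤ m → 2 ≤ n → (z2 m n : ℝ) ≤ C * ((m : ℝ) * √(n : ℝ) + (n : ℝ)) := by
  refine ⟨fun m n => ⟨lower m n, upper m n⟩, ?_⟩
  rintro ⟨C, hC⟩
  -- take m = n = (2 k) ^ 2
  obtain ⟨k, hk⟩ := exists_nat_gt (max C 1)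
  have hkC : C < k := lt_of_le_of_lt (le_max_left _ _) hk
  have hk1 : (1 : ℝ) < k := lt_of_le_of_lt (le_max_right _ _) hk
  have hk1' : 1 < k := by exact_mod_cast hk1
  set N : ℕ := (8 * k) ^ 2 with hN
  have hNge : 2 ≤ N := by rw [hN]; nlinarith
  have h := hC N N hNge hNge
  have hs : √(N : ℝ) = 8 * k := by
    rw [hN]; push_cast
    rw [Real.sqrt_sq (by positivity)]
  have hlow := lower N N
  have hdiv : N / 2 = 32 * k ^ 2 := by
    rw [hN]
    have : (8 * k) ^ 2 = (32 * k ^ 2) * 2 := by ring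
    rw [this, Nat.mul_div_cancel _ (by norm_num)]
  rw [hdiv] at hlow
  have hlow' : ((32 * (k : ℝ) ^ 2) * (32 * (k : ℝ) ^ 2)) ≤ (z2 N N : ℝ) := by exact_mod_cast hlow
  rw [hs] at h
  have hNr : (N : ℝ) = 64 * (k : ℝ) ^ 2 := by rw [hN]; push_cast; ring
  rw [hNr] at h
  have h3 : (z2 N N : ℝ) ≤ C * (64 * (k : ℝ) ^ 2 * (8 * k) + 64 * (k : ℝ) ^ 2) := h
  have h4 : C * (64 * (k : ℝ) ^ 2 * (8 * k) + 64 * (k : ℝ) ^ 2) ≤
      k * (64 * (k : ℝ) ^ 2 * (8 * k) + 64 * (k : ℝ) ^ 2) := by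
    apply mul_le_mul_of_nonneg_right hkC.le (by positivity)
  have hpos : 0 < (k : ℝ) ^ 3 := by positivity
  nlinarith [hlow', h3, h4, hpos, mul_pos hpos (by linarith : (0 : ℝ) < k)]

end Pool.Agent.Results.MP_af8792_co.QuadraticGrowth
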